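import Pool.Agent.Y489.GE.Stm
import Pool.Agent.Y50.GE.Om
import Pool.Agent.Y467.GE.CP
import Pool.Agent.Y467.GE.MG
import Pool.Agent.Y812.GE.EN
import Pool.Agent.Y165.GE.CG
import Pool.Agent.Y590.GE.BK

/-!
# Two families of short paths: the homotopy between two paths with the same end points given by the
contraction of FREE loops

No control of the lengths of the intermediate paths is needed.
-/

set_option autoImplicit false

open Set Topology Filter

noncomputable section

namespace Pool.Agent.U354.GE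

open Pool.Agent.Y489.GE Pool.Agent.Y50.GE Pool.Agent.Y467.GE

variable {X : Type} [MetricSpace X]

/-- without closed geodesics of length at most `2 L` the polygons are contracted -/
theorem polC_of_no [CompactSpace X] {r : ℝ} {m : X → X → ℝ → X} (hm : GMap X r m) {L : ℝ}
    (hno : ¬ ClosedGeod X (2 * L)) (M : ℕ) [NeZero (2 * M)] {δ : ℝ} (hδ : 0 < δ) (hδr : δ ≤ r)
    (hML : M * δ = L) : PolC X (2 * M) δ := by
  refine Pool.Agent.Y590.GE.t_BK Pool.Agent.Y812.GE.t_EN X r m hm (2 * M) δ hδ hδr ?_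
  intro x hx hE heq
  have hN : (0 : ℝ) < (2 * M : ℕ) := by exact_mod_cast Nat.pos_of_ne_zero (NeZero.ne (2 * M))
  have h1 : 0 < En (2 * M) x := lt_of_lt_of_le (by positivity) hE
  have h2 := Pool.Agent.Y165.GE.t_CG X r m hm (2 * M) δ hδr x hx heq h1
  apply hno
  have h3 : ((2 * M : ℕ) : ℝ) * δ = 2 * L := by push_cast; rw [← hML]; ring
  rwa [h3] at h2

theorem pol_lip {r : ℝ} {m : X → X → ℝ → X} (hm : GMap X r m) {N : ℕ} {e : ℝ} (he : e ≤ r)
    (he0 : 0 < e) {x : ZMod N → X} (hx : x ∈ Pol X N e) (s t : ℝ) :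
    dist (pol m N e x s) (pol m N e x t) ≤ |s - t| := by
  unfold pol
  refine (bar_lip hm he hx _ _).trans ?_
  have h1 := cl_lip N (s / e) (t / e)
  have h2 : |s / e - t / e| = |s - t| / e := by
    rw [← sub_div, abs_div, abs_of_pos he0]
  rw [h2] at h1
  calc e * |cl N (s / e) - cl N (t / e)| ≤ e * (|s - t| / e) :=
        mul_le_mul_of_nonneg_left h1 he0.le
    _ = |s - t| := by field_simp

/-- the value at a vertex -/
theorem pol_vertex {r : ℝ} {m : X → X → ℝ → X} (hm : GMap X r m) {N : ℕ} {e : ℝ} (he : e ≤ r)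
    (he0 : 0 < e) {x : ZMod N → X} (hx : x ∈ Pol X N e) (n : ℕ) (hn : n ≤ N) {t : ℝ}
    (ht : t = n * e) : pol m N e x t = x ((n : ℕ) : ZMod N) := by
  have h1 : t / e = n := by rw [ht]; field_simp
  unfold pol
  rw [h1, cl_of_mem (Nat.cast_nonneg n) (by exact_mod_cast hn)]
  have := bar_int hm he hx (n : ℤ)
  rw [Int.cast_natCast, Int.cast_natCast] at this
  exact this

/-- two polygons with the same vertices between `a` and `b` have the same curve there -/
theorem pol_congr {r : ℝ} {m : X → X → ℝ → X} (hm : GMap X r m) {N : ℕ} {e : ℝ} (he : e ≤ r)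
    (he0 : 0 < e) {x y : ZMod N → X} (hx : x ∈ Pol X N e) (hy : y ∈ Pol X N e) (a b : ℤ)
    (hab : a < b) (ha : 0 ≤ a) (hb : b ≤ N)
    (hxy : ∀ n : ℤ, a ≤ n → n ≤ b → x (n : ZMod N) = y (n : ZMod N)) {t : ℝ}
    (h1 : a * e ≤ t) (h2 : t ≤ b * e) : pol m N e x t = pol m N e y t := by
  have haR : (0 : ℝ) ≤ a := by exact_mod_cast ha
  have hbR : (b : ℝ) ≤ N := by exact_mod_cast hb
  have hu1 : (a : ℝ) ≤ t / e := by rwa [le_div_iff₀ he0]
  have hu2 : t / e ≤ b := by rwa [div_le_iff₀ he0]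
  unfold pol
  rw [cl_of_mem (haR.trans hu1) (hu2.trans hbR)]
  obtain ⟨n, hn⟩ : ∃ n : ℤ, n = min ⌊t / e⌋ (b - 1) := ⟨_, rfl⟩
  have hn1 : a ≤ n := by
    rw [hn]
    exact le_min (Int.le_floor.2 hu1) (by omega)
  have hn2 : n + 1 ≤ b := by
    have := min_le_right ⌊t / e⌋ (b - 1)
    omega
  have hmem : t / e ∈ Icc (n : ℝ) (n + 1) := by
    constructor
    · have h3 : (n : ℝ) ≤ (⌊t / e⌋ : ℝ) := by
        exact_mod_cast hn.le.trans (min_le_left _ _)
      exact h3.trans (Int.floor_le _)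
    · rcases le_total ⌊t / e⌋ (b - 1) with h | h
      · rw [min_eq_left h] at hn
        rw [hn]
        exact (Int.lt_floor_add_one _).le
      · rw [min_eq_right h] at hn
        rw [hn]
        push_cast
        linarith
  rw [bar_eq hm he hx n hmem, bar_eq hm he hy n hmem, hxy n hn1 (by omega)]
  have h4 := hxy (n + 1) (by omega) hn2
  push_cast at h4
  rw [h4]

section

variable {r : ℝ} {m : X → X → ℝ → X} (hm : GMap X r m) {M : ℕ} [NeZero (2 * M)] {δ L : ℝ}
  (hδ : 0 < δ) (hδr : δ ≤ r) (hML : M * δ = L) {p : X}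

/-- the polygon of a pair -/
def pg (M : ℕ) (δ : ℝ) {p : X} {L : ℝ} (z : ↥(Qa p L L)) : ZMod (2 * M) → X :=
  samp (2 * M) δ (om z)

include hδ hML

theorem L_nonneg : 0 ≤ L := by
  rw [← hML]
  positivity

theorem N_mul : ((2 * M : ℕ) : ℝ) * δ = L + L := by push_cast; rw [← hML]; ring

theorem pg_mem (z : ↥(Qa p L L)) : pg M δ z ∈ Polp X (2 * M) δ p :=
  samp_mem hδ.le (N_mul hδ hML) (om_mem (L_nonneg hδ hML) (L_nonneg hδ hML) z)

theorem pg_fst (z : ↥(Qa p L L)) (n : ℤ) (h0 : 0 ≤ n) (h1 : n ≤ M) :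
    pg M δ z (n : ZMod (2 * M)) = z.1.1 (n * δ) := by
  unfold pg
  rw [samp_int (N_mul hδ hML) (om_mem (L_nonneg hδ hML) (L_nonneg hδ hML) z) h0 (by push_cast; omega)]
  unfold om
  rw [if_pos]
  rw [← hML]
  have : (n : ℝ) ≤ M := by exact_mod_cast h1
  exact mul_le_mul_of_nonneg_right this hδ.le

theorem pg_snd (z : ↥(Qa p L L)) (n : ℤ) (h0 : M ≤ n) (h1 : n ≤ 2 * M) :
    pg M δ z (n : ZMod (2 * M)) = z.1.2 (2 * L - n * δ) := by
  unfold pg
  rw [samp_int (N_mul hδ hML) (om_mem (L_nonneg hδ hML) (L_nonneg hδ hML) z) (by omega)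
    (by push_cast; omega)]
  unfold om
  split_ifs with h
  · have h2 : (M : ℝ) ≤ n := by exact_mod_cast h0
    have h3 : L ≤ n * δ := by rw [← hML]; exact mul_le_mul_of_nonneg_right h2 hδ.le
    have h4 : n * δ = L := le_antisymm h h3
    rw [h4, end_eq z]
    congr 1
    ring
  · congr 1
    ring

end

/-- the trapezoid -/
def trap (L t : ℝ) : ℝ := max 0 (min 1 (min t (L + 2 - t)))

/-- the clamped parameter -/
def th (L t : ℝ) : ℝ := max 0 (min (t - 1) L)

theorem trap_cont (L : ℝ) : Continuous (trap L) := by unfold trap; fun_prop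

theorem th_cont (L : ℝ) : Continuous (th L) := by unfold th; fun_prop

theorem th_mem {L : ℝ} (hL : 0 ≤ L) (t : ℝ) : 0 ≤ th L t ∧ th L t ≤ L :=
  ⟨le_max_left _ _, max_le hL (min_le_right _ _)⟩

/-- the paths of the polygon -/
def J0 (m : X → X → ℝ → X) (M : ℕ) (δ L : ℝ) (x : ZMod (2 * M) → X) (t : ℝ) : X :=
  pol m (2 * M) δ x (th L t)

/-- the paths of the polygon, second half -/
def J1 (m : X → X → ℝ → X) (M : ℕ) (δ L : ℝ) (x : ZMod (2 * M) → X) (t : ℝ) : X :=
  pol m (2 * M) δ x (2 * L - th L t)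

section

variable {r : ℝ} {m : X → X → ℝ → X} (hm : GMap X r m) {M : ℕ} {δ L : ℝ}
  (hδ : 0 < δ) (hδr : δ ≤ r)

include hm hδ hδr

theorem J0_cont {Z : Type} [TopologicalSpace Z] {F : Z → ZMod (2 * M) → X} {u : Z → ℝ}
    (hF : Continuous F) (hF2 : ∀ z, F z ∈ Pol X (2 * M) δ) (hu : Continuous u) :
    Continuous fun z => J0 m M δ L (F z) (u z) := by
  unfold J0
  exact eval_cont (F := fun z => pol m (2 * M) δ (F z)) (τ := fun z => th L (u z))
    (pol_cont hm hδ hδr (κ := fun _ => δ) hF hF2 continuous_const (fun _ => hδ))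
    (fun z s t => pol_lip hm hδr hδ (hF2 z) s t) ((th_cont L).comp hu)

theorem J1_cont {Z : Type} [TopologicalSpace Z] {F : Z → ZMod (2 * M) → X} {u : Z → ℝ}
    (hF : Continuous F) (hF2 : ∀ z, F z ∈ Pol X (2 * M) δ) (hu : Continuous u) :
    Continuous fun z => J1 m M δ L (F z) (u z) := by
  unfold J1
  exact eval_cont (F := fun z => pol m (2 * M) δ (F z)) (τ := fun z => 2 * L - th L (u z))
    (pol_cont hm hδ hδr (κ := fun _ => δ) hF hF2 continuous_const (fun _ => hδ))
    (fun z s t => pol_lip hm hδr hδ (hF2 z) s t) (continuous_const.sub ((th_cont L).comp hu))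

variable (hML : M * δ = L)

include hML

theorem J0_start {x : ZMod (2 * M) → X} (hx : x ∈ Pol X (2 * M) δ) (hL : 0 ≤ L) {t : ℝ}
    (ht : t ≤ 1) : J0 m M δ L x t = x 0 := by
  unfold J0
  have h1 : th L t = ((0 : ℕ) : ℝ) * δ := by
    unfold th
    rw [max_eq_left ((min_le_left _ _).trans (by linarith))]
    simp
  rw [pol_vertex hm hδr hδ hx 0 (Nat.zero_le _) h1]
  simp

theorem J1_start {x : ZMod (2 * M) → X} (hx : x ∈ Pol X (2 * M) δ) (hL : 0 ≤ L) {t : ℝ}
    (ht : t ≤ 1) : J1 m M δ L x t = x 0 := by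
  unfold J1
  have h1 : 2 * L - th L t = ((2 * M : ℕ) : ℝ) * δ := by
    unfold th
    rw [max_eq_left ((min_le_left _ _).trans (by linarith))]
    push_cast
    rw [← hML]
    ring
  rw [pol_vertex hm hδr hδ hx (2 * M) le_rfl h1, ZMod.natCast_self]

theorem J0_end {x : ZMod (2 * M) → X} (hx : x ∈ Pol X (2 * M) δ) (hL : 0 ≤ L) {t : ℝ}
    (ht : L + 1 ≤ t) : J0 m M δ L x t = x (M : ZMod (2 * M)) := by
  unfold J0
  have h1 : th L t = ((M : ℕ) : ℝ) * δ := by
    unfold th
    rw [min_eq_right (by linarith), max_eq_right hL, hML]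
  exact pol_vertex hm hδr hδ hx M (by omega) h1

theorem J1_end {x : ZMod (2 * M) → X} (hx : x ∈ Pol X (2 * M) δ) (hL : 0 ≤ L) {t : ℝ}
    (ht : L + 1 ≤ t) : J1 m M δ L x t = x (M : ZMod (2 * M)) := by
  unfold J1
  have h1 : 2 * L - th L t = ((M : ℕ) : ℝ) * δ := by
    unfold th
    rw [min_eq_right (by linarith), max_eq_right hL, hML]
    ring
  exact pol_vertex hm hδr hδ hx M (by omega) h1

end

/-- **The homotopy between two paths with the same end points.** -/
theorem pair_homotopy {r : ℝ} {m : X → X → ℝ → X} (hm : GMap X r m) {M : ℕ} [NeZero (2 * M)]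
    {δ L : ℝ} (hδ : 0 < δ) (hδr : δ ≤ r) (hML : M * δ = L) (p : X)
    (hC : PolC X (2 * M) δ) :
    ∃ C : ↥(Qa p L L) → ℝ → ℝ → X,
      Continuous (fun w : ↥(Qa p L L) × ℝ × ℝ => C w.1 w.2.1 w.2.2) ∧
      (∀ z u t, u ≤ 0 → C z u t = J0 m M δ L (pg M δ z) t) ∧
      (∀ z u t, 1 ≤ u → C z u t = J1 m M δ L (pg M δ z) t) ∧
      (∀ z u, C z u 0 = p) ∧ ∀ z u, C z u (L + 2) = z.1.1 L := by
  classical
  have hL := L_nonneg hδ hML
  obtain ⟨c, H, hH, hHT, hH0, hH1, -⟩ := hC
  have hpc : ∀ (y : X) (t : ℝ), pol m (2 * M) δ (fun _ => y) t = y := by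
    intro y t
    unfold pol bar
    exact hm.self (hδ.le.trans hδr) y ⟨Int.fract_nonneg _, (Int.fract_lt_one _).le⟩
  set P : ↥(Qa p L L) → ↥(Pol X (2 * M) δ) := fun z => ⟨pg M δ z, (pg_mem hδ hML z).1⟩ with hP
  have hPc : Continuous P := by
    refine Continuous.subtype_mk ?_ _
    exact samp_cont om_cont
  -- the endpoint of the whole homotopy is controlled by a reparametrisation near the ends
  set C : ↥(Qa p L L) → ℝ → ℝ → X := fun z u t =>
    if u ≤ 1 / 2 then J0 m M δ L (H (P z) (2 * max 0 u * trap L t)) t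
    else J1 m M δ L (H (P z) (2 * max 0 (1 - u) * trap L t)) t with hCdef
  have ht0 : ∀ t, t ≤ 0 → trap L t = 0 := by
    intro t ht
    unfold trap
    exact max_eq_left ((min_le_right _ _).trans ((min_le_left _ _).trans ht))
  have ht2 : ∀ t, L + 2 ≤ t → trap L t = 0 := by
    intro t ht
    unfold trap
    exact max_eq_left ((min_le_right _ _).trans ((min_le_right _ _).trans (by linarith)))
  have ht1 : ∀ t, 1 ≤ t → t ≤ L + 1 → trap L t = 1 := by
    intro t h1 h2
    unfold trap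
    rw [min_eq_left (le_min h1 (by linarith)), max_eq_right zero_le_one]
  have htn : ∀ t, 0 ≤ trap L t := fun t => le_max_left _ _
  refine ⟨C, ?_, ?_, ?_, ?_, ?_⟩
  · refine Continuous.if_le ?_ ?_ (continuous_fst.comp continuous_snd) continuous_const ?_
    · refine J0_cont hm hδ hδr (F := fun w : ↥(Qa p L L) × ℝ × ℝ =>
        H (P w.1) (2 * max 0 w.2.1 * trap L w.2.2)) (u := fun w => w.2.2) ?_ (fun z => hHT _ _)
        (by fun_prop)
      refine hH.comp ((hPc.comp continuous_fst).prodMk ?_)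
      exact (continuous_const.mul (continuous_const.max (continuous_fst.comp
        continuous_snd))).mul ((trap_cont L).comp (continuous_snd.comp continuous_snd))
    · refine J1_cont hm hδ hδr (F := fun w : ↥(Qa p L L) × ℝ × ℝ =>
        H (P w.1) (2 * max 0 (1 - w.2.1) * trap L w.2.2)) (u := fun w => w.2.2) ?_
        (fun z => hHT _ _) (by fun_prop)
      refine hH.comp ((hPc.comp continuous_fst).prodMk ?_)
      exact (continuous_const.mul (continuous_const.max (continuous_const.sub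
        (continuous_fst.comp continuous_snd)))).mul
        ((trap_cont L).comp (continuous_snd.comp continuous_snd))
    · rintro ⟨z, u, t⟩ hu
      simp only at hu
      simp only [hu]
      have e1 : 2 * max 0 (1 / 2 : ℝ) * trap L t = trap L t := by
        rw [max_eq_right (by norm_num)]; ring
      have e2 : 2 * max 0 (1 - 1 / 2 : ℝ) * trap L t = trap L t := by
        rw [max_eq_right (by norm_num)]; ring
      rw [e1, e2]
      rcases le_total t 1 with h | h
      · rw [J0_start hm hδ hδr hML (hHT _ _) hL h, J1_start hm hδ hδr hML (hHT _ _) hL h]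
      · rcases le_total t (L + 1) with h' | h'
        · rw [ht1 t h h', hH1 _ 1 le_rfl]
          unfold J0 J1
          rw [hpc, hpc]
        · rw [J0_end hm hδ hδr hML (hHT _ _) hL h', J1_end hm hδ hδr hML (hHT _ _) hL h']
  · intro z u t hu
    simp only [hCdef]
    rw [if_pos (by linarith), max_eq_left hu, mul_zero, zero_mul, hH0 _ 0 le_rfl]
  · intro z u t hu
    simp only [hCdef]
    rw [if_neg (by linarith), max_eq_left (by linarith), mul_zero, zero_mul, hH0 _ 0 le_rfl]
  · intro z u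
    have e : ∀ a : ℝ, H (P z) (2 * a * trap L 0) = pg M δ z := by
      intro a
      rw [ht0 0 le_rfl, mul_zero, hH0 _ 0 le_rfl]
    simp only [hCdef]
    rw [e, e]
    split_ifs
    · rw [J0_start hm hδ hδr hML (pg_mem hδ hML z).1 hL (by norm_num)]
      exact (pg_mem hδ hML z).2
    · rw [J1_start hm hδ hδr hML (pg_mem hδ hML z).1 hL (by norm_num)]
      exact (pg_mem hδ hML z).2
  · intro z u
    have e : ∀ a : ℝ, H (P z) (2 * a * trap L (L + 2)) = pg M δ z := by
      intro a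
      rw [ht2 _ le_rfl, mul_zero, hH0 _ 0 le_rfl]
    have hv : pg M δ z (M : ZMod (2 * M)) = z.1.1 L := by
      have := pg_fst hδ hML z (M : ℤ) (by omega) le_rfl
      rw [Int.cast_natCast, Int.cast_natCast, hML] at this
      exact this
    simp only [hCdef]
    rw [e, e]
    split_ifs
    · rw [J0_end hm hδ hδr hML (pg_mem hδ hML z).1 hL (by linarith)]
      exact hv
    · rw [J1_end hm hδ hδr hML (pg_mem hδ hML z).1 hL (by linarith)]
      exact hv

/-- the first half depends on the first path only -/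
theorem J0_pg {r : ℝ} {m : X → X → ℝ → X} (hm : GMap X r m) {M : ℕ} [NeZero (2 * M)]
    {δ L : ℝ} (hδ : 0 < δ) (hδr : δ ≤ r) (hML : M * δ = L) {p : X} (z z' : ↥(Qa p L L))
    (h : z.1.1 = z'.1.1) (t : ℝ) : J0 m M δ L (pg M δ z) t = J0 m M δ L (pg M δ z') t := by
  have hM : 0 < M := by
    have := NeZero.ne (2 * M)
    omega
  have hL := L_nonneg hδ hML
  unfold J0
  refine pol_congr hm hδr hδ (pg_mem hδ hML z).1 (pg_mem hδ hML z').1 0 M (by exact_mod_cast hM)
    le_rfl (by push_cast; omega) ?_ ?_ ?_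
  · intro n h0 h1
    rw [pg_fst hδ hML z n h0 h1, pg_fst hδ hML z' n h0 h1, h]
  · simpa using (th_mem hL t).1
  · rw [Int.cast_natCast, hML]
    exact (th_mem hL t).2

/-- the second half depends on the second path only -/
theorem J1_pg {r : ℝ} {m : X → X → ℝ → X} (hm : GMap X r m) {M : ℕ} [NeZero (2 * M)]
    {δ L : ℝ} (hδ : 0 < δ) (hδr : δ ≤ r) (hML : M * δ = L) {p : X} (z z' : ↥(Qa p L L))
    (h : z.1.2 = z'.1.2) (t : ℝ) : J1 m M δ L (pg M δ z) t = J1 m M δ L (pg M δ z') t := by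
  have hM : 0 < M := by
    have := NeZero.ne (2 * M)
    omega
  have hL := L_nonneg hδ hML
  unfold J1
  refine pol_congr hm hδr hδ (pg_mem hδ hML z).1 (pg_mem hδ hML z').1 M (2 * M) (by
    have : (0 : ℤ) < M := by exact_mod_cast hM
    omega) (by omega) (by push_cast; omega) ?_ ?_ ?_
  · intro n h0 h1
    rw [pg_snd hδ hML z n h0 h1, pg_snd hδ hML z' n h0 h1, h]
  · rw [Int.cast_natCast, hML]
    linarith [(th_mem hL t).2]
  · push_cast
    rw [mul_assoc, hML]
    linarith [(th_mem hL t).1]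

end Pool.Agent.U354.GE
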