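import Pool.Agent.Y489.GE.Stm
import Pool.Agent.Y467.GE.MG
import Pool.Agent.Y812.GE.EN
import Pool.Agent.Y165.GE.CG
import Pool.Agent.Y590.GE.BK

/-!
# The Birkhoff process commutes with the rotations of the polygons

Families of closed curves which are equivariant for a map `σ` with `σ ^ 2 ^ a = 1` and the rotation.
-/

set_option autoImplicit false

open Set Topology Filter

noncomputable section

namespace Pool.Agent.U354.GE

open Pool.Agent.Y489.GE Pool.Agent.Y590.GE

variable {X : Type} [MetricSpace X]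

/-- all vertices are moved half way to the vertex with the index shifted by `b` -/
theorem mv_homotopy {r : ℝ} {m : X → X → ℝ → X} (hm : GMap X r m) {N : ℕ} (b : ZMod N)
    {K : Type} [TopologicalSpace K] (u : C(K, ZMod N → X))
    (hu : ∀ k i, dist (u k i) (u k (i + b)) ≤ r) :
    ∃ v : C(K, ZMod N → X), u.Homotopic v ∧ ∀ k i, v k i = m (u k i) (u k (i + b)) (1 / 2) := by
  have half : ∀ s : unitInterval, ((s : ℝ) / 2) ∈ Icc (0 : ℝ) 1 := fun s =>
    ⟨by linarith [s.2.1], by linarith [s.2.2]⟩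
  have hc : Continuous (fun z : unitInterval × K => fun i : ZMod N =>
      m (u z.2 i) (u z.2 (i + b)) ((z.1 : ℝ) / 2)) := by
    refine continuous_pi fun i => ?_
    have h1 : Continuous (fun z : unitInterval × K =>
        ((u z.2 i, u z.2 (i + b), (z.1 : ℝ) / 2) : X × X × ℝ)) := by
      refine Continuous.prodMk ?_ (Continuous.prodMk ?_ ?_)
      · exact (continuous_apply i).comp (u.continuous.comp continuous_snd)
      · exact (continuous_apply (i + b)).comp (u.continuous.comp continuous_snd)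
      · exact (continuous_subtype_val.comp continuous_fst).div_const 2
    rw [← continuousOn_univ]
    exact hm.cont.comp h1.continuousOn (fun z _ => ⟨hu z.2 i, half z.1⟩)
  have hv : Continuous (fun k : K => fun i : ZMod N => m (u k i) (u k (i + b)) (1 / 2)) := by
    have h2 := hc.comp (continuous_const.prodMk continuous_id :
      Continuous fun k : K => ((1 : unitInterval), k))
    exact h2
  refine ⟨⟨_, hv⟩, ⟨⟨⟨_, hc⟩, ?_, ?_⟩⟩, fun k i => rfl⟩
  · intro k
    funext i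
    show m (u k i) (u k (i + b)) (((0 : unitInterval) : ℝ) / 2) = u k i
    rw [show (((0 : unitInterval) : ℝ) / 2) = 0 by simp]
    exact hm.zero _ _ (hu k i)
  · intro k
    rfl

/-- uniform decrease of the energy when there is no closed geodesic -/
theorem uniform_dec [CompactSpace X] {r : ℝ} {m : X → X → ℝ → X} (hm : GMap X r m) (N : ℕ)
    [NeZero N] {δ e : ℝ} (hδ : 0 < δ) (hδr : δ ≤ r) (he0 : 0 < e)
    (hno : ¬ ClosedGeod X (N * δ)) : ∃ η : ℝ, 0 < η ∧ ∀ x ∈ Pol X N δ, e ^ 2 ≤ En N x →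
      En N (ph m N (1 / 2) x) ≤ En N x - η := by
  have hEN := Pool.Agent.Y812.GE.t_EN
  have hhalf : (1 / 2 : ℝ) ∈ Icc (0 : ℝ) 1 := ⟨by norm_num, by norm_num⟩
  have hc1 : ContinuousOn (fun x : ZMod N → X => ph m N (1 / 2) x) (Pol X N δ) :=
    ph_cont hm N hδr continuousOn_id continuousOn_const (fun z hz => hz) (fun _ _ => hhalf)
  have hc : ContinuousOn (fun x : ZMod N → X => En N x - En N (ph m N (1 / 2) x))
      (Pol X N δ) :=
    (En_cont N).continuousOn.sub ((En_cont N).comp_continuousOn hc1)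
  obtain ⟨K, hK⟩ : ∃ K : Set (ZMod N → X), K = Pol X N δ ∩ {x | e ^ 2 ≤ En N x} := ⟨_, rfl⟩
  have hKc : IsCompact K := by
    rw [hK]
    exact (Pol_compact N δ).inter_right (isClosed_le continuous_const (En_cont N))
  rcases K.eq_empty_or_nonempty with h0 | h0
  · refine ⟨1, one_pos, fun x hx hx2 => ?_⟩
    have : x ∈ K := by rw [hK]; exact ⟨hx, hx2⟩
    rw [h0] at this
    exact this.elim
  · obtain ⟨x0, hx0, hmin⟩ := hKc.exists_isMinOn h0 (hc.mono (by rw [hK]; exact inter_subset_left))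
    have hx0' : x0 ∈ Pol X N δ ∩ {x | e ^ 2 ≤ En N x} := by rw [← hK]; exact hx0
    refine ⟨En N x0 - En N (ph m N (1 / 2) x0), ?_, fun x hx hx2 => ?_⟩
    · have h1 := (hEN X r m hm N δ hδr x0 hx0'.1 (1 / 2) hhalf).2
      have h2 : En N (ph m N (1 / 2) x0) ≠ En N x0 := by
        intro h3
        exact hno (Pool.Agent.Y165.GE.t_CG X r m hm N δ hδr x0 hx0'.1 h3
          (lt_of_lt_of_le (by positivity) hx0'.2))
      exact sub_pos.2 (lt_of_le_of_ne h1 h2)
    · have h3 : En N x0 - En N (ph m N (1 / 2) x0) ≤ En N x - En N (ph m N (1 / 2) x) :=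
        hmin (by rw [hK]; exact ⟨hx, hx2⟩ : x ∈ K)
      linarith

/-- equivariant shortening -/
theorem shrink [CompactSpace X] {r : ℝ} {m : X → X → ℝ → X} (hm : GMap X r m) (N : ℕ)
    [NeZero N] {δ e : ℝ} (hδ : 0 < δ) (hδr : δ ≤ r) (he0 : 0 < e)
    (hno : ¬ ClosedGeod X (N * δ)) {K : Type} [TopologicalSpace K] (u₀ : C(K, ZMod N → X))
    (h0 : ∀ k, u₀ k ∈ Pol X N δ) (σ : K → K) (c : ZMod N)
    (hσ : ∀ k i, u₀ (σ k) i = u₀ k (i + c)) :
    ∃ u : C(K, ZMod N → X), u₀.Homotopic u ∧ (∀ k i, u (σ k) i = u k (i + c)) ∧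
      ∀ k, En N (u k) < e ^ 2 := by
  have hEN := Pool.Agent.Y812.GE.t_EN
  have hhalf : (1 / 2 : ℝ) ∈ Icc (0 : ℝ) 1 := ⟨by norm_num, by norm_num⟩
  obtain ⟨η, hη, hdec⟩ := uniform_dec hm N hδ hδr he0 hno
  have key : ∀ n : ℕ, ∃ u : C(K, ZMod N → X), u₀.Homotopic u ∧ (∀ k, u k ∈ Pol X N δ) ∧
      (∀ k i, u (σ k) i = u k (i + c)) ∧
      ∀ k, En N (u k) < e ^ 2 ∨ En N (u k) ≤ En N (u₀ k) - n * η := by
    intro n
    induction n with
    | zero => exact ⟨u₀, ContinuousMap.Homotopic.refl _, h0, hσ, fun k => Or.inr (by simp)⟩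
    | succ n ih =>
      obtain ⟨u, h1, h2, h3, h4⟩ := ih
      obtain ⟨v, hv, hv'⟩ := mv_homotopy hm (1 : ZMod N) u (fun k i => (h2 k i).trans hδr)
      have hvp : ∀ k, v k = ph m N (1 / 2) (u k) := fun k => funext fun i => hv' k i
      refine ⟨v, h1.trans hv, fun k => ?_, fun k i => ?_, fun k => ?_⟩
      · rw [hvp]
        exact (hEN X r m hm N δ hδr _ (h2 k) (1 / 2) hhalf).1
      · rw [hv', hv', h3, h3, add_right_comm]
      · have h5 := (hEN X r m hm N δ hδr _ (h2 k) (1 / 2) hhalf).2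
        rw [hvp]
        rcases h4 k with h | h
        · exact Or.inl (h5.trans_lt h)
        · rcases lt_or_ge (En N (u k)) (e ^ 2) with h6 | h6
          · exact Or.inl (h5.trans_lt h6)
          · right
            have h7 := hdec _ (h2 k) h6
            push_cast
            linarith
  obtain ⟨n, hn⟩ := exists_nat_gt (N * δ ^ 2 / η)
  obtain ⟨u, h1, -, h3, h4⟩ := key n
  refine ⟨u, h1, h3, fun k => ?_⟩
  rcases h4 k with h | h
  · exact h
  · have h5 := En_le N (h0 k)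
    have h6 := En_nonneg N (u k)
    rw [div_lt_iff₀ hη] at hn
    exfalso
    linarith

/-- the midpoint is symmetric -/
theorem m_symm {r r₀ : ℝ} {m : X → X → ℝ → X} (hm : GMap X r m) (hr : r < r₀)
    (hU : UniqGeod X r₀) {x y : X} (h : dist x y ≤ r) : m x y (1 / 2) = m y x (1 / 2) := by
  have hhalf : (1 / 2 : ℝ) ∈ Icc (0 : ℝ) 1 := ⟨by norm_num, by norm_num⟩
  have h' : dist y x ≤ r := by rwa [dist_comm]
  have a1 := hm.dist_left h hhalf
  have a2 := hm.dist_right h hhalf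
  have a3 := hm.dist_left h' hhalf
  have a4 := hm.dist_right h' hhalf
  rw [dist_comm y x] at a3 a4
  rw [dist_comm y] at a3
  rw [dist_comm _ x] at a4
  refine hU x y _ _ (h.trans_lt hr) ?_ ?_ ?_
  · rw [a1, a2]; ring
  · rw [a3, a4]; ring
  · rw [a1, a4]; ring

/-- small polygons with `2 ^ j` vertices are contracted equivariantly -/
theorem halve {r r₀ : ℝ} {m : X → X → ℝ → X} (hm : GMap X r m) (hr : r < r₀)
    (hU : UniqGeod X r₀) (j : ℕ) {D : ℝ} (hD0 : 0 ≤ D) (hD : 2 ^ j * D ≤ r) {K : Type}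
    [TopologicalSpace K] (u : C(K, ZMod (2 ^ j) → X))
    (hu : ∀ k i i', dist (u k i) (u k i') ≤ D) (σ : K → K) (c : ZMod (2 ^ j))
    (hσ : ∀ k i, u (σ k) i = u k (i + c)) (l : ℕ) (hl : l ≤ j) :
    ∃ v : C(K, ZMod (2 ^ j) → X), u.Homotopic v ∧ (∀ k i, v (σ k) i = v k (i + c)) ∧
      (∀ k i i', dist (v k i) (v k i') ≤ 2 ^ l * D) ∧
      ∀ k i, v k (i + ((2 ^ (j - l) : ℕ) : ZMod (2 ^ j))) = v k i := by
  have hhalf : (1 / 2 : ℝ) ∈ Icc (0 : ℝ) 1 := ⟨by norm_num, by norm_num⟩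
  induction l with
  | zero =>
    refine ⟨u, ContinuousMap.Homotopic.refl _, hσ, fun k i i' => ?_, fun k i => ?_⟩
    · rw [pow_zero, one_mul]
      exact hu k i i'
    · rw [Nat.sub_zero, ZMod.natCast_self, add_zero]
  | succ l ih =>
    obtain ⟨v, h1, h2, h3, h4⟩ := ih (by omega)
    have hle : (2 : ℝ) ^ l * D ≤ r := by
      refine le_trans ?_ hD
      exact mul_le_mul_of_nonneg_right (pow_le_pow_right₀ (by norm_num) (by omega)) hD0
    obtain ⟨w, hw, hw'⟩ := mv_homotopy hm ((2 ^ (j - (l + 1)) : ℕ) : ZMod (2 ^ j)) v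
      (fun k i => (h3 k _ _).trans hle)
    have hmv : ∀ k i, dist (v k i) (w k i) ≤ 2 ^ l * D / 2 := by
      intro k i
      rw [hw', hm.dist_left ((h3 k _ _).trans hle) hhalf]
      have := h3 k i (i + ((2 ^ (j - (l + 1)) : ℕ) : ZMod (2 ^ j)))
      linarith
    refine ⟨w, h1.trans hw, fun k i => ?_, fun k i i' => ?_, fun k i => ?_⟩
    · rw [hw', hw', h2, h2, add_right_comm]
    · have e1 := hmv k i
      have e2 := hmv k i'
      have e3 := h3 k i i'
      have e4 := dist_triangle (w k i) (v k i) (w k i')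
      have e5 := dist_triangle (v k i) (v k i') (w k i')
      rw [dist_comm (w k i) (v k i)] at e4
      rw [pow_succ]
      linarith
    · rw [hw', hw']
      have e1 : i + ((2 ^ (j - (l + 1)) : ℕ) : ZMod (2 ^ j)) +
          ((2 ^ (j - (l + 1)) : ℕ) : ZMod (2 ^ j)) = i + ((2 ^ (j - l) : ℕ) : ZMod (2 ^ j)) := by
        have : 2 ^ (j - l) = 2 ^ (j - (l + 1)) + 2 ^ (j - (l + 1)) := by
          rw [← two_mul, ← pow_succ']
          congr 1
          omega
        rw [this, Nat.cast_add, add_assoc]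
      rw [e1, h4]
      exact m_symm hm hr hU ((h3 k _ _).trans hle)

/-- **Equivariant contraction.** Vertices `V k n`, `n ∈ ℕ`, of closed polygons with `2 ^ j`
vertices and sides at most `δ`. -/
theorem equivariant [CompactSpace X] {r₀ : ℝ} (hr₀ : 0 < r₀) (hX : GeodSpace X)
    (hU : UniqGeod X r₀) (j M : ℕ) {δ : ℝ} (hδ : 0 < δ) (hδr : δ ≤ r₀ / 2)
    (hno : ¬ ClosedGeod X (2 ^ j * δ)) {K : Type} [TopologicalSpace K] (σ : K → K)
    (V : K → ℕ → X) (hV : ∀ n, Continuous fun k => V k n)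
    (h1 : ∀ k n, dist (V k n) (V k (n + 1)) ≤ δ) (h2 : ∀ k n, V k (n + 2 ^ j) = V k n)
    (h3 : ∀ k n, V (σ k) n = V k (n + M)) (f : C(K, X)) (hf : ∀ k, f k = V k 0) :
    ∃ g : C(K, X), f.Homotopic g ∧ ∀ k, g (σ k) = g k := by
  obtain ⟨m, hm⟩ := Pool.Agent.Y467.GE.t_MG X r₀ hr₀ hX hU
  have hmod : ∀ k n, V k (n % 2 ^ j) = V k n := by
    intro k n
    have h4 : ∀ q s, V k (s + 2 ^ j * q) = V k s := by
      intro q s
      induction q with
      | zero => rw [mul_zero, add_zero]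
      | succ q ih => rw [mul_add, mul_one, ← add_assoc, h2, ih]
    have h5 := h4 (n / 2 ^ j) (n % 2 ^ j)
    rw [Nat.mod_add_div] at h5
    exact h5.symm
  -- the polygons
  let u₀ : C(K, ZMod (2 ^ j) → X) := ⟨fun k i => V k i.val, continuous_pi fun i => hV _⟩
  have hu₀ : ∀ k (n : ℕ), u₀ k (n : ZMod (2 ^ j)) = V k n := by
    intro k n
    show V k ((n : ZMod (2 ^ j)).val) = V k n
    rw [ZMod.val_natCast, hmod]
  have hval : ∀ i : ZMod (2 ^ j), ((i.val : ℕ) : ZMod (2 ^ j)) = i := fun i =>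
    ZMod.natCast_zmod_val i
  have hadd : ∀ k (i : ZMod (2 ^ j)) (n : ℕ), u₀ k (i + n) = V k (i.val + n) := by
    intro k i n
    rw [← hu₀, Nat.cast_add, hval]
  have hP : ∀ k, u₀ k ∈ Pol X (2 ^ j) δ := by
    intro k i
    have h4 := hadd k i 1
    rw [Nat.cast_one] at h4
    rw [h4]
    exact h1 k i.val
  have hS : ∀ k i, u₀ (σ k) i = u₀ k (i + (M : ZMod (2 ^ j))) := by
    intro k i
    rw [hadd]
    exact h3 k i.val
  -- shortening
  obtain ⟨e, he⟩ : ∃ e : ℝ, e = r₀ / 2 / (2 ^ j * (2 * 2 ^ j)) := ⟨_, rfl⟩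
  have he0 : 0 < e := by rw [he]; positivity
  have hno' : ¬ ClosedGeod X (((2 ^ j : ℕ) : ℝ) * δ) := by
    push_cast
    exact hno
  obtain ⟨u, g1, g2, g3⟩ := shrink hm (2 ^ j) hδ hδr he0 hno' u₀ hP σ _ hS
  have hfar : ∀ k i i', dist (u k i) (u k i') ≤ 2 * 2 ^ j * e := by
    intro k i i'
    have a1 := far_le (2 ^ j) he0 (g3 k) i
    have a2 := far_le (2 ^ j) he0 (g3 k) i'
    have a3 := dist_triangle_right (u k i) (u k i') (u k 0)
    push_cast at a1 a2
    linarith
  obtain ⟨v, b1, b2, -, b4⟩ := halve hm (by linarith) hU j (D := 2 * 2 ^ j * e) (by positivity)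
    (by rw [he]; exact le_of_eq (by field_simp)) u hfar σ _ g2 j le_rfl
  have hconst : ∀ k i, v k i = v k 0 := by
    intro k i
    have h4 : ∀ n : ℕ, v k (n : ZMod (2 ^ j)) = v k 0 := by
      intro n
      induction n with
      | zero => rw [Nat.cast_zero]
      | succ n ih =>
        have h5 := b4 k (n : ZMod (2 ^ j))
        rw [Nat.sub_self, pow_zero, Nat.cast_one] at h5
        rw [Nat.cast_add, Nat.cast_one, h5, ih]
    rw [← hval i]
    exact h4 _
  let ev : C(ZMod (2 ^ j) → X, X) := ⟨fun y => y 0, continuous_apply 0⟩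
  refine ⟨ev.comp v, ?_, fun k => ?_⟩
  · have h4 := (ContinuousMap.Homotopic.refl ev).comp (g1.trans b1)
    have h5 : ev.comp u₀ = f := by
      ext k
      show u₀ k 0 = f k
      rw [hf, ← hu₀, Nat.cast_zero]
    rw [← h5]
    exact h4
  · show v (σ k) 0 = v k 0
    rw [b2, hconst]

end Pool.Agent.U354.GE
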