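import Pool.Agent.U354.GE.Pair

/-!
# Spaces covered by two open sets with short families of paths
-/

set_option autoImplicit false

open Set Topology Filter

noncomputable section

namespace Pool.Agent.U354.GE

open Pool.Agent.Y489.GE Pool.Agent.Y50.GE Pool.Agent.Y467.GE

variable {X : Type} [MetricSpace X]

/-- **Two families of short paths.** -/
theorem two_families [CompactSpace X] {r L : ℝ} (hr : 0 < r) (hX : GeodSpace X)
    (hU : UniqGeod X r) (hL : 0 < L) (hno : ¬ ClosedGeod X (2 * L)) (p : X) (K : Type)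
    [TopologicalSpace K] [NormalSpace K] (f : K → X) (V W : Set K) (hV : IsOpen V)
    (hW : IsOpen W) (hVW : V ∪ W = univ) (ρ τ : K → ℝ → X) (hρ : ContinuousOn ρ V)
    (hτ : ContinuousOn τ W) (eρ : ∀ k ∈ V, ρ k ∈ Pa p L ∧ ρ k L = f k)
    (eτ : ∀ k ∈ W, τ k ∈ Pa p L ∧ τ k L = f k) :
    ∃ H : K → ℝ → X, Continuous (fun z : K × ℝ => H z.1 z.2) ∧ (∀ k, H k 0 = p) ∧
      ∀ k, H k 1 = f k := by
  classical
  obtain ⟨m, hm⟩ := Pool.Agent.Y467.GE.t_MG X r hr hX hU
  have hr2 : 0 < r / 2 := by linarith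
  obtain ⟨M, hM⟩ := exists_nat_gt (L / (r / 2))
  have hM0 : (0 : ℝ) < M := lt_trans (by positivity) hM
  have hMne : M ≠ 0 := by
    rintro rfl
    simp at hM0
  have : NeZero (2 * M) := ⟨by omega⟩
  obtain ⟨δ, hδdef⟩ : ∃ δ, δ = L / M := ⟨_, rfl⟩
  have hδ : 0 < δ := by rw [hδdef]; positivity
  have hML : M * δ = L := by rw [hδdef]; field_simp
  have hδr : δ ≤ r / 2 := by
    rw [hδdef, div_le_iff₀ hM0]
    rw [div_lt_iff₀ hr2] at hM
    linarith
  obtain ⟨C, hC, hC0, hC1, hCs, hCe⟩ := pair_homotopy hm hδ hδr hML p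
    (polC_of_no hm hno M hδ hδr hML)
  -- weights
  have hdisj : Disjoint Wᶜ Vᶜ := by
    rw [Set.disjoint_left]
    intro k h1 h2
    have := hVW.symm ▸ mem_univ k
    rcases this with h | h
    · exact h2 h
    · exact h1 h
  obtain ⟨w, hw0, hw1, hw⟩ := exists_continuous_zero_one_of_isClosed hW.isClosed_compl
    hV.isClosed_compl hdisj
  have hwV : ∀ k, w k < 1 → k ∈ V := by
    intro k hk
    by_contra h
    have := hw1 (x := k) h
    simp only [Pi.one_apply] at this
    linarith
  have hwW : ∀ k, 0 < w k → k ∈ W := by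
    intro k hk
    by_contra h
    have := hw0 (x := k) h
    simp only [Pi.zero_apply] at this
    linarith
  -- the constant path as a substitute
  have hPp : (fun _ : ℝ => p) ∈ Pa p L :=
    ⟨fun s t => by rw [dist_self]; exact abs_nonneg _, fun _ _ => rfl, fun _ _ => rfl⟩
  set z0 : ↥(Qa p L L) := ⟨(fun _ => p, fun _ => p), hPp, hPp, rfl⟩ with hz0
  set zV : K → ↥(Qa p L L) := fun k =>
    if h : k ∈ V then ⟨(ρ k, ρ k), (eρ k h).1, (eρ k h).1, rfl⟩ else z0 with hzV
  set zW : K → ↥(Qa p L L) := fun k =>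
    if h : k ∈ W then ⟨(τ k, τ k), (eτ k h).1, (eτ k h).1, rfl⟩ else z0 with hzW
  set zI : K → ↥(Qa p L L) := fun k =>
    if h : k ∈ V ∧ k ∈ W then ⟨(ρ k, τ k), (eρ k h.1).1, (eτ k h.2).1,
      (eρ k h.1).2.trans (eτ k h.2).2.symm⟩ else z0 with hzI
  have cV : ContinuousOn zV V := by
    rw [continuousOn_iff_continuous_domRestrict] at hρ ⊢
    rw [continuous_induced_rng]
    refine (hρ.prodMk hρ).congr ?_
    intro k
    simp only [hzV, domRestrict_apply, Function.comp]
    rw [dif_pos k.2]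
  have cW : ContinuousOn zW W := by
    rw [continuousOn_iff_continuous_domRestrict] at hτ ⊢
    rw [continuous_induced_rng]
    refine (hτ.prodMk hτ).congr ?_
    intro k
    simp only [hzW, domRestrict_apply, Function.comp]
    rw [dif_pos k.2]
  have cI : ContinuousOn zI (V ∩ W) := by
    have h1 := hρ.mono (inter_subset_left (s := V) (t := W))
    have h2 := hτ.mono (inter_subset_right (s := V) (t := W))
    rw [continuousOn_iff_continuous_domRestrict] at h1 h2 ⊢
    rw [continuous_induced_rng]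
    refine (h1.prodMk h2).congr ?_
    intro k
    simp only [hzI, domRestrict_apply, Function.comp]
    rw [dif_pos ⟨k.2.1, k.2.2⟩]
  -- the homotopy
  set Γ : K → ℝ → X := fun k t =>
    if w k ≤ 0 then C (zV k) 0 t else if 1 ≤ w k then C (zW k) 1 t
    else C (zI k) (3 * w k - 1) t with hΓ
  have eV : ∀ k, w k < 1 / 3 → ∀ t, Γ k t = C (zV k) 0 t := by
    intro k hk t
    simp only [hΓ]
    split_ifs with h1 h2
    · rfl
    · linarith
    · have hkV := hwV k (by linarith)
      have hkW := hwW k (not_le.1 h1)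
      rw [hC0 _ _ _ (by linarith : 3 * w k - 1 ≤ 0), hC0 _ _ _ le_rfl]
      refine J0_pg hm hδ hδr hML _ _ ?_ t
      simp only [hzV, hzI]
      rw [dif_pos ⟨hkV, hkW⟩, dif_pos hkV]
  have eW : ∀ k, 2 / 3 < w k → ∀ t, Γ k t = C (zW k) 1 t := by
    intro k hk t
    simp only [hΓ]
    split_ifs with h1 h2
    · linarith
    · rfl
    · have hkV := hwV k (not_le.1 h2)
      have hkW := hwW k (by linarith)
      rw [hC1 _ _ _ (by linarith : 1 ≤ 3 * w k - 1), hC1 _ _ _ le_rfl]
      refine J1_pg hm hδ hδr hML _ _ ?_ t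
      simp only [hzW, hzI]
      rw [dif_pos ⟨hkV, hkW⟩, dif_pos hkW]
  have eI : ∀ k, 0 < w k → w k < 1 → ∀ t, Γ k t = C (zI k) (3 * w k - 1) t := by
    intro k h0 h1 t
    simp only [hΓ]
    rw [if_neg (by linarith), if_neg (by linarith)]
  have hwc : Continuous fun k => w k := w.continuous
  have oV : IsOpen {k : K | w k < 1 / 3} := isOpen_lt hwc continuous_const
  have oW : IsOpen {k : K | 2 / 3 < w k} := isOpen_lt continuous_const hwc
  have oI : IsOpen {k : K | 0 < w k ∧ w k < 1} :=
    (isOpen_lt continuous_const hwc).inter (isOpen_lt hwc continuous_const)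
  have hΓc : Continuous (fun z : K × ℝ => Γ z.1 z.2) := by
    rw [continuous_iff_continuousAt]
    rintro ⟨k, t⟩
    have key : ∀ (S : Set K) (z : K → ↥(Qa p L L)) (u : K → ℝ), IsOpen S → k ∈ S →
        ContinuousOn z S → Continuous u → (∀ k' ∈ S, ∀ t', Γ k' t' = C (z k') (u k') t') →
        ContinuousAt (fun z : K × ℝ => Γ z.1 z.2) (k, t) := by
      intro S z u hS hk hz hu hE
      have hS' : IsOpen (S ×ˢ (univ : Set ℝ)) := hS.prod isOpen_univ
      have h1 : ContinuousOn (fun q : K × ℝ => (z q.1, u q.1, q.2)) (S ×ˢ (univ : Set ℝ)) := by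
        refine (hz.comp continuousOn_fst fun q hq => hq.1).prodMk ?_
        exact ((hu.comp continuous_fst).prodMk continuous_snd).continuousOn
      have h2 : ContinuousOn (fun z : K × ℝ => Γ z.1 z.2) (S ×ˢ (univ : Set ℝ)) := by
        refine (hC.comp_continuousOn h1).congr ?_
        intro q hq
        exact hE q.1 hq.1 q.2
      exact h2.continuousAt (hS'.mem_nhds ⟨hk, mem_univ t⟩)
    rcases lt_or_ge (w k) (1 / 3) with h | h
    · exact key {k : K | w k < 1 / 3} zV (fun _ => 0) oV h
        (cV.mono fun k' hk' => hwV k' (lt_trans hk' (by norm_num))) continuous_const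
        (fun k' hk' t' => eV k' hk' t')
    · rcases lt_or_ge (2 / 3) (w k) with h' | h'
      · exact key {k : K | 2 / 3 < w k} zW (fun _ => 1) oW h'
          (cW.mono fun k' hk' => hwW k' (lt_trans (by norm_num) hk')) continuous_const
          (fun k' hk' t' => eW k' hk' t')
      · exact key {k : K | 0 < w k ∧ w k < 1} zI (fun k => 3 * w k - 1) oI
          ⟨by linarith, by linarith⟩
          (cI.mono fun k' hk' => ⟨hwV k' hk'.2, hwW k' hk'.1⟩) (by fun_prop)
          (fun k' hk' t' => eI k' hk'.1 hk'.2 t')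
  refine ⟨fun k s => Γ k (s * (L + 2)), ?_, ?_, ?_⟩
  · exact hΓc.comp (continuous_fst.prodMk (continuous_snd.mul continuous_const))
  · intro k
    simp only [zero_mul, hΓ]
    split_ifs <;> exact hCs _ _
  · intro k
    simp only [one_mul, hΓ]
    split_ifs with h1 h2
    · have hkV := hwV k (by linarith)
      rw [hCe]
      simp only [hzV]
      rw [dif_pos hkV]
      exact (eρ k hkV).2
    · have hkW := hwW k (by linarith)
      rw [hCe]
      simp only [hzW]
      rw [dif_pos hkW]
      exact (eτ k hkW).2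
    · have hkV := hwV k (not_le.1 h2)
      have hkW := hwW k (not_le.1 h1)
      rw [hCe]
      simp only [hzI]
      rw [dif_pos ⟨hkV, hkW⟩]
      exact (eρ k hkV).2

end Pool.Agent.U354.GE
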